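import Mathlib

/-!
# Shift operators generated by sequences of invertible maps: definitions
-/

open scoped ENNReal

namespace Pool.Agent.W_MP_43e0cc_an

/-- A two-sided sequence `(S_n)` of invertible (bounded) linear maps of `E` such that
`‖S_n‖` and `‖S_n⁻¹‖` are bounded uniformly in `n`. -/
structure BddInvSeq (𝕜 E : Type) [RCLike 𝕜] [NormedAddCommGroup E] [NormedSpace 𝕜 E] where
  /-- the maps `S_n` -/
  map : ℤ → (E ≃L[𝕜] E)
  /-- uniform bound on the norms of the maps and of their inverses -/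
  bdd : ∃ C : ℝ, ∀ n, ‖(map n : E →L[𝕜] E)‖ ≤ C ∧ ‖((map n).symm : E →L[𝕜] E)‖ ≤ C

/-- A two-sided sequence of weights, bounded and bounded away from zero. -/
structure Weight (𝕜 : Type) [RCLike 𝕜] where
  /-- the weights `ω_n` -/
  val : ℤ → 𝕜
  /-- bounded -/
  bdd : ∃ C : ℝ, ∀ n, ‖val n‖ ≤ C
  /-- bounded away from zero -/
  away : ∃ c : ℝ, 0 < c ∧ ∀ n, c ≤ ‖val n‖

section Def

/-- The Banach space `ℓ_p(E)` of bilateral sequences `(x_n)_{n ∈ ℤ}` in `E` with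
`∑ ‖x_n‖ ^ p < ∞` and its usual norm (Mathlib's `lp`). -/
def Ell (p : ℝ≥0∞) (E : Type) [NormedAddCommGroup E] : Type := lp (fun _ : ℤ => E) p

variable {𝕜 E : Type} [RCLike 𝕜] [NormedAddCommGroup E] [NormedSpace 𝕜 E]
variable (p : ℝ≥0∞) [Fact (1 ≤ p)]

/-- The usual norm of `ℓ_p(E)` (Mathlib's). -/
noncomputable instance instNormedEll : NormedAddCommGroup (Ell p E) :=
  (lp.normedAddCommGroup : NormedAddCommGroup (lp (fun _ : ℤ => E) p))

/-- `ℓ_p(E)` as a normed space (Mathlib's). -/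
noncomputable instance instNormedSpaceEll : NormedSpace 𝕜 (Ell p E) :=
  (lp.instNormedSpace : NormedSpace 𝕜 (lp (fun _ : ℤ => E) p))

theorem completeSpace_ell [CompleteSpace E] : CompleteSpace (Ell p E) :=
  (inferInstance : CompleteSpace (lp (fun _ : ℤ => E) p))

variable {p}

/-- The `n`-th term of an element of `ℓ_p(E)`. -/
def Ell.term (x : Ell p E) (n : ℤ) : E := x.1 n

/-- The element of `ℓ_p(E)` with given terms. -/
def Ell.mk (x : ℤ → E) (hx : Memℓp x p) : Ell p E := ⟨x, hx⟩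

@[simp] theorem Ell.term_mk (x : ℤ → E) (hx : Memℓp x p) (n : ℤ) :
    (Ell.mk x hx).term n = x n := rfl

theorem Ell.ext {x y : Ell p E} (h : ∀ n, x.term n = y.term n) : x = y := lp.ext (funext h)

theorem Ell.memℓp (x : Ell p E) : Memℓp (fun n => x.term n) p := lp.memℓp (p := p) x

@[simp] theorem Ell.term_add (x y : Ell p E) (n : ℤ) : (x + y).term n = x.term n + y.term n := rfl
@[simp] theorem Ell.term_sub (x y : Ell p E) (n : ℤ) : (x - y).term n = x.term n - y.term n := rfl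
@[simp] theorem Ell.term_zero (n : ℤ) : (0 : Ell p E).term n = 0 := rfl
@[simp] theorem Ell.term_smul (c : 𝕜) (x : Ell p E) (n : ℤ) : (c • x).term n = c • x.term n := rfl

theorem Ell.norm_term_le (x : Ell p E) (n : ℤ) : ‖x.term n‖ ≤ ‖x‖ :=
  lp.norm_apply_le_norm (zero_lt_one.trans_le (Fact.out : 1 ≤ p)).ne' (x : lp (fun _ : ℤ => E) p) n

theorem Ell.norm_rpow (hp : p ≠ ∞) (x : Ell p E) :
    ‖x‖ ^ p.toReal = ∑' n, ‖x.term n‖ ^ p.toReal :=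
  lp.norm_rpow_eq_tsum (ENNReal.toReal_pos (zero_lt_one.trans_le Fact.out).ne' hp)
    (x : lp (fun _ : ℤ => E) p)

variable (p)

theorem memℓp_shift (hp : p ≠ ∞) {A : ℤ → (E →L[𝕜] E)} {C : ℝ} (hC : ∀ n, ‖A n‖ ≤ C)
    {x : ℤ → E} (hx : Memℓp x p) : Memℓp (fun n : ℤ => A (n + 1) (x (n + 1))) p := by
  have hp0 : 0 < p.toReal := ENNReal.toReal_pos (zero_lt_one.trans_le Fact.out).ne' hp
  have hC0 : 0 ≤ C := (norm_nonneg _).trans (hC 0)
  rw [memℓp_gen_iff hp0] at hx ⊢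
  have h1 : Summable fun n : ℤ => ‖x (n + 1)‖ ^ p.toReal :=
    ((Equiv.addRight (1 : ℤ)).summable_iff (f := fun n : ℤ => ‖x n‖ ^ p.toReal)).2 hx
  refine Summable.of_nonneg_of_le (fun n => by positivity) (fun n => ?_)
    (h1.mul_left (C ^ p.toReal))
  rw [← Real.mul_rpow hC0 (norm_nonneg _)]
  refine Real.rpow_le_rpow (norm_nonneg _) ?_ hp0.le
  exact ((A (n + 1)).le_opNorm _).trans (mul_le_mul_of_nonneg_right (hC _) (norm_nonneg _))

theorem memℓp_genShift (hp : p ≠ ∞) (A : ℤ → (E →L[𝕜] E)) (hA : ∃ C : ℝ, ∀ n, ‖A n‖ ≤ C)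
    (x : Ell p E) : Memℓp (fun n : ℤ => A (n + 1) (x.term (n + 1))) p :=
  memℓp_shift p hp hA.choose_spec x.memℓp

/-- The linear map `(x_n)_n ↦ (A_{n+1} x_{n+1})_n` on `ℓ_p(E)`, for a norm-bounded sequence `A` of
continuous linear maps of `E`. -/
noncomputable def genShiftLin (hp : p ≠ ∞) (A : ℤ → (E →L[𝕜] E))
    (hA : ∃ C : ℝ, ∀ n, ‖A n‖ ≤ C) : Ell p E →ₗ[𝕜] Ell p E where
  toFun x := Ell.mk (fun n : ℤ => A (n + 1) (x.term (n + 1))) (memℓp_genShift p hp A hA x)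
  map_add' _ _ := Ell.ext fun _ => map_add _ _ _
  map_smul' _ _ := Ell.ext fun _ => map_smul _ _ _

theorem genShiftLin_bound (hp : p ≠ ∞) (A : ℤ → (E →L[𝕜] E))
    (hA : ∃ C : ℝ, ∀ n, ‖A n‖ ≤ C) : ∃ C : ℝ, ∀ x, ‖genShiftLin p hp A hA x‖ ≤ C * ‖x‖ := by
  have hA' := hA
  obtain ⟨C, hC⟩ := hA'
  have hp0 : 0 < p.toReal := ENNReal.toReal_pos (zero_lt_one.trans_le Fact.out).ne' hp
  have hC0 : 0 ≤ C := (norm_nonneg _).trans (hC 0)
  refine ⟨C, fun x => ?_⟩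
  rw [← Real.rpow_le_rpow_iff (norm_nonneg _) (by positivity) hp0,
    Real.mul_rpow hC0 (norm_nonneg _), Ell.norm_rpow hp, Ell.norm_rpow hp x, ← tsum_mul_left]
  have hx := (memℓp_gen_iff hp0).1 x.memℓp
  have h1 : Summable fun n : ℤ => ‖x.term (n + 1)‖ ^ p.toReal :=
    ((Equiv.addRight (1 : ℤ)).summable_iff (f := fun n : ℤ => ‖x.term n‖ ^ p.toReal)).2 hx
  rw [← (Equiv.addRight (1 : ℤ)).tsum_eq (fun n : ℤ => C ^ p.toReal * ‖x.term n‖ ^ p.toReal)]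
  have key : ∀ n : ℤ, ‖A (n + 1) (x.term (n + 1))‖ ^ p.toReal ≤
      C ^ p.toReal * ‖x.term (n + 1)‖ ^ p.toReal := by
    intro n
    rw [← Real.mul_rpow hC0 (norm_nonneg _)]
    refine Real.rpow_le_rpow (norm_nonneg _) ?_ hp0.le
    exact ((A (n + 1)).le_opNorm _).trans (mul_le_mul_of_nonneg_right (hC _) (norm_nonneg _))
  exact Summable.tsum_le_tsum key
    (Summable.of_nonneg_of_le (fun n => by positivity) key (h1.mul_left _)) (h1.mul_left _)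

/-- The operator `(x_n)_n ↦ (A_{n+1} x_{n+1})_n` on `ℓ_p(E)`, for a norm-bounded sequence `A` of
continuous linear maps of `E`, as a bounded operator. -/
noncomputable def genShift (hp : p ≠ ∞) (A : ℤ → (E →L[𝕜] E)) (hA : ∃ C : ℝ, ∀ n, ‖A n‖ ≤ C) :
    Ell p E →L[𝕜] Ell p E :=
  (genShiftLin p hp A hA).mkContinuousOfExistsBound (genShiftLin_bound p hp A hA)

@[simp]
theorem genShift_term (hp : p ≠ ∞) (A : ℤ → (E →L[𝕜] E)) (hA : ∃ C : ℝ, ∀ n, ‖A n‖ ≤ C)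
    (x : Ell p E) (n : ℤ) : (genShift p hp A hA x).term n = A (n + 1) (x.term (n + 1)) := rfl

theorem BddInvSeq.bdd' (S : BddInvSeq 𝕜 E) : ∃ C : ℝ, ∀ n, ‖(S.map n : E →L[𝕜] E)‖ ≤ C :=
  ⟨S.bdd.choose, fun n => (S.bdd.choose_spec n).1⟩

/-- The shift operator `σ_S` on `ℓ_p(E)` generated by `S`: `(x_n)_n ↦ (S_{n+1} x_{n+1})_n`. -/
noncomputable def shiftOp (hp : p ≠ ∞) (S : BddInvSeq 𝕜 E) : Ell p E →L[𝕜] Ell p E :=
  genShift p hp (fun n => (S.map n : E →L[𝕜] E)) S.bdd'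

theorem Weight.bdd' (w : Weight 𝕜) :
    ∃ C : ℝ, ∀ n, ‖(w.val n • ContinuousLinearMap.id 𝕜 𝕜 : 𝕜 →L[𝕜] 𝕜)‖ ≤ C :=
  ⟨w.bdd.choose, fun n => by simpa [norm_smul] using w.bdd.choose_spec n⟩

/-- The weighted backward shift `B_ω` on `ℓ_p(𝕜)`: `(x_n)_n ↦ (ω_{n+1} x_{n+1})_n`. -/
noncomputable def weightedShift (hp : p ≠ ∞) (w : Weight 𝕜) : Ell p 𝕜 →L[𝕜] Ell p 𝕜 :=
  genShift p hp (fun n => w.val n • ContinuousLinearMap.id 𝕜 𝕜) w.bdd'

@[simp]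
theorem shiftOp_term (hp : p ≠ ∞) (S : BddInvSeq 𝕜 E) (x : Ell p E) (n : ℤ) :
    (shiftOp p hp S x).term n = S.map (n + 1) (x.term (n + 1)) := rfl

@[simp]
theorem weightedShift_term (hp : p ≠ ∞) (w : Weight 𝕜) (x : Ell p 𝕜) (n : ℤ) :
    (weightedShift p hp w x).term n = w.val (n + 1) * x.term (n + 1) := rfl

/-- The product `B_{ω^(1)} × ⋯ × B_{ω^(k)}` acting coordinatewise on `ℓ_p(𝕜)^k`. -/
noncomputable def prodShift (hp : p ≠ ∞) {k : ℕ} (w : Fin k → Weight 𝕜) :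
    (Fin k → Ell p 𝕜) →L[𝕜] (Fin k → Ell p 𝕜) :=
  ContinuousLinearMap.pi fun i =>
    (weightedShift p hp (w i)).comp (ContinuousLinearMap.proj i)

/-- `T₁` and `T₂` are linearly conjugate: some bounded linear bijection `H` satisfies
`H ∘ T₁ = T₂ ∘ H`. -/
def LinConj {E₁ E₂ : Type} [NormedAddCommGroup E₁] [NormedSpace 𝕜 E₁] [NormedAddCommGroup E₂]
    [NormedSpace 𝕜 E₂] (T₁ : E₁ →L[𝕜] E₁) (T₂ : E₂ →L[𝕜] E₂) : Prop :=
  ∃ H : E₁ →L[𝕜] E₂, Function.Bijective H ∧ ∀ x, H (T₁ x) = T₂ (H x)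

end Def

end Pool.Agent.W_MP_43e0cc_an
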