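import Pool.Agent.W_MP_43e0cc_an.Defs

/-!
# A matrix-generated shift operator which is not conjugate to a product of weighted shifts

The shift operator on `ℓ_p(X)`, `dim X ≥ 2`, generated by the constant sequence of a non-trivial
Jordan block is not linearly conjugate to any finite product of weighted backward shifts.
-/

open scoped ENNReal

namespace Pool.Agent.W_MP_43e0cc_an

section Single

variable {𝕜 E : Type} [RCLike 𝕜] [NormedAddCommGroup E] [NormedSpace 𝕜 E]
variable (p : ℝ≥0∞) [Fact (1 ≤ p)]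

/-- The sequence with a single non-zero term. -/
noncomputable def Ell.single (n : ℤ) (a : E) : Ell p E :=
  (lp.single p n a : lp (fun _ : ℤ => E) p)

@[simp] theorem Ell.term_single (n : ℤ) (a : E) (m : ℤ) :
    (Ell.single p n a).term m = if m = n then a else 0 := by
  have : (Ell.single p n a).term m =
    ((lp.single p n a : lp (fun _ : ℤ => E) p) : ∀ _ : ℤ, E) m := rfl
  rw [this, lp.coeFn_single, Pi.single_apply]

theorem Ell.norm_single (n : ℤ) (a : E) : ‖Ell.single p n a‖ = ‖a‖ :=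
  lp.norm_single (E := fun _ : ℤ => E) (zero_lt_one.trans_le (Fact.out : 1 ≤ p)) n a

theorem Ell.single_smul (c : 𝕜) (n : ℤ) (a : E) :
    Ell.single p n (c • a) = c • Ell.single p n a := by
  apply Ell.ext
  intro m
  rw [Ell.term_smul, Ell.term_single, Ell.term_single]
  split_ifs <;> simp

/-- Continuous linear maps out of `ℓ_p(𝕜)` vanishing on the unit vectors vanish. -/
theorem Ell.clm_eq_zero (hp : p ≠ ∞) {f : Ell p 𝕜 →L[𝕜] 𝕜}
    (h : ∀ n, f (Ell.single p n (1 : 𝕜)) = 0) : f = 0 := by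
  let g : lp (fun _ : ℤ => 𝕜) p →L[𝕜] 𝕜 := f
  have hg : g = 0 := by
    apply lp.ext_continuousLinearMap hp
    intro j
    ext
    exact h j
  exact hg

end Single

section Weighted

variable {𝕜 : Type} [RCLike 𝕜] (p : ℝ≥0∞) [Fact (1 ≤ p)] (hp : p ≠ ∞) (w : Weight 𝕜)

theorem Weight.ne_zero (n : ℤ) : w.val n ≠ 0 := by
  obtain ⟨c, hc, h⟩ := w.away
  exact norm_pos_iff.1 (hc.trans_le (h n))

/-- Bounded forward orbit. -/
def BddOrbit {F : Type} [NormedAddCommGroup F] [NormedSpace 𝕜 F] (T : F →L[𝕜] F) (v : F) : Prop :=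
  ∃ C : ℝ, ∀ n : ℕ, ‖(T ^ n) v‖ ≤ C

theorem weightedShift_single (j : ℤ) (a : 𝕜) :
    weightedShift p hp w (Ell.single p j a) = Ell.single p (j - 1) (w.val j * a) := by
  apply Ell.ext
  intro n
  rw [weightedShift_term, Ell.term_single, Ell.term_single]
  by_cases h : n = j - 1
  · subst h
    simp
  · have h' : n + 1 ≠ j := fun h' => h (by omega)
    simp [h, h']

theorem weightedShift_pow_single (v : Ell p 𝕜) (j : ℤ) (n : ℕ) :
    ((weightedShift p hp w) ^ n) (Ell.single p j (v.term j)) =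
      Ell.single p (j - n) ((((weightedShift p hp w) ^ n) v).term (j - n)) := by
  induction n with
  | zero => simp
  | succ n ih =>
    rw [pow_succ', mul_apply_eq_comp, mul_apply_eq_comp, ih, weightedShift_single]
    have e : j - ((n + 1 : ℕ) : ℤ) = j - (n : ℤ) - 1 := by push_cast; ring
    rw [e, weightedShift_term, sub_add_cancel]

theorem bddOrbit_single_of_bddOrbit {v : Ell p 𝕜}
    (h : BddOrbit (weightedShift p hp w) v) (j : ℤ) (hj : v.term j ≠ 0) :
    BddOrbit (weightedShift p hp w) (Ell.single p j (1 : 𝕜)) := by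
  obtain ⟨C, hC⟩ := h
  refine ⟨‖(v.term j)⁻¹‖ * C, fun n => ?_⟩
  have e : (Ell.single p j (1 : 𝕜)) = (v.term j)⁻¹ • (Ell.single p j (v.term j)) := by
    rw [← Ell.single_smul]
    simp [hj]
  rw [e, map_smul, norm_smul, weightedShift_pow_single, Ell.norm_single]
  refine mul_le_mul_of_nonneg_left ?_ (norm_nonneg _)
  exact (Ell.norm_term_le _ _).trans (hC n)

theorem bddOrbit_single_iff_sub (j : ℤ) :
    BddOrbit (weightedShift p hp w) (Ell.single p j (1 : 𝕜)) ↔
      BddOrbit (weightedShift p hp w) (Ell.single p (j - 1) (1 : 𝕜)) := by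
  have hw := w.ne_zero j
  have e : weightedShift p hp w (Ell.single p j (1 : 𝕜)) =
      w.val j • (Ell.single p (j - 1) (1 : 𝕜)) := by
    rw [weightedShift_single, ← Ell.single_smul]
    simp
  have key : ∀ n : ℕ, ‖((weightedShift p hp w) ^ (n + 1)) (Ell.single p j (1 : 𝕜))‖ =
      ‖w.val j‖ * ‖((weightedShift p hp w) ^ n) (Ell.single p (j - 1) (1 : 𝕜))‖ := by
    intro n
    rw [pow_succ, mul_apply_eq_comp, e, map_smul, norm_smul]
  constructor
  · rintro ⟨C, hC⟩
    refine ⟨‖w.val j‖⁻¹ * C, fun n => ?_⟩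
    rw [← div_eq_inv_mul, le_div_iff₀ (norm_pos_iff.2 hw), mul_comm, ← key]
    exact hC _
  · rintro ⟨C, hC⟩
    refine ⟨max ‖(Ell.single p j (1 : 𝕜))‖ (‖w.val j‖ * C), fun n => ?_⟩
    cases n with
    | zero => simp
    | succ n =>
      rw [key]
      exact (mul_le_mul_of_nonneg_left (hC n) (norm_nonneg _)).trans (le_max_right _ _)

theorem bddOrbit_single_iff (i j : ℤ) :
    BddOrbit (weightedShift p hp w) (Ell.single p i (1 : 𝕜)) ↔
      BddOrbit (weightedShift p hp w) (Ell.single p j (1 : 𝕜)) := by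
  have h0 : ∀ i : ℤ, BddOrbit (weightedShift p hp w) (Ell.single p i (1 : 𝕜)) ↔
      BddOrbit (weightedShift p hp w) (Ell.single p 0 (1 : 𝕜)) := by
    intro i
    induction i using Int.induction_on with
    | zero => exact Iff.rfl
    | succ n ih =>
      rw [bddOrbit_single_iff_sub]
      simpa using ih
    | pred n ih =>
      rw [← bddOrbit_single_iff_sub]
      exact ih
  rw [h0 i, h0 j]

theorem eq_zero_of_bddOrbit
    (hun : ¬ BddOrbit (weightedShift p hp w) (Ell.single p 0 (1 : 𝕜)))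
    {v : Ell p 𝕜} (h : BddOrbit (weightedShift p hp w) v) : v = 0 := by
  apply Ell.ext
  intro j
  by_contra hj
  exact hun ((bddOrbit_single_iff p hp w j 0).1
    (bddOrbit_single_of_bddOrbit p hp w h j (by simpa using hj)))

end Weighted

section Jordan

variable {𝕜 E : Type} [RCLike 𝕜] [NormedAddCommGroup E] [NormedSpace 𝕜 E]

/-- The rank one nilpotent perturbation of the identity `x ↦ x + f(x) e`, with `f e = 0`. -/
noncomputable def jordan (f : E →L[𝕜] 𝕜) (e : E) (hfe : f e = 0) : E ≃L[𝕜] E :=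
  ContinuousLinearEquiv.equivOfInverse
    (ContinuousLinearMap.id 𝕜 E + f.smulRight e) (ContinuousLinearMap.id 𝕜 E - f.smulRight e)
    (fun x => by simp [hfe]) (fun x => by simp [hfe])

/-- The constant sequence of Jordan blocks. -/
noncomputable def jordanSeq (f : E →L[𝕜] 𝕜) (e : E) (hfe : f e = 0) : BddInvSeq 𝕜 E where
  map := fun _ => jordan f e hfe
  bdd := ⟨max ‖(jordan f e hfe : E →L[𝕜] E)‖ ‖((jordan f e hfe).symm : E →L[𝕜] E)‖,
    fun _ => ⟨le_max_left _ _, le_max_right _ _⟩⟩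

variable (p : ℝ≥0∞) [Fact (1 ≤ p)] (hp : p ≠ ∞)
variable (f : E →L[𝕜] 𝕜) (e : E) (hfe : f e = 0)

theorem jordan_apply (x : E) : jordan f e hfe x = x + f x • e := rfl

/-- `T ^ n x = (shift)^n x + n N (shift)^n x`. -/
theorem shiftOp_pow_term (x : Ell p E) (n : ℕ) (m : ℤ) :
    (((shiftOp p hp (jordanSeq f e hfe)) ^ n) x).term m =
      x.term (m + n) + ((n : 𝕜) * f (x.term (m + n))) • e := by
  induction n generalizing m with
  | zero => simp
  | succ n ih =>
    rw [pow_succ', mul_apply_eq_comp, shiftOp_term, ih]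
    have e1 : m + 1 + (n : ℤ) = m + ((n + 1 : ℕ) : ℤ) := by push_cast; ring
    rw [e1]
    change jordan f e hfe _ = _
    rw [jordan_apply, map_add, map_smul, hfe, smul_zero, add_zero, add_assoc, ← add_smul]
    push_cast
    ring_nf

/-- The plain `n`-fold shift. -/
noncomputable def plain (x : Ell p E) (n : ℕ) : Ell p E :=
  Ell.mk (fun m : ℤ => x.term (m + n)) (by
    have hp0 : 0 < p.toReal := ENNReal.toReal_pos (zero_lt_one.trans_le Fact.out).ne' hp
    have hx := x.memℓp
    rw [memℓp_gen_iff hp0] at hx ⊢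
    exact ((Equiv.addRight (n : ℤ)).summable_iff (f := fun n : ℤ => ‖x.term n‖ ^ p.toReal)).2 hx)

theorem norm_plain (x : Ell p E) (n : ℕ) : ‖plain p hp x n‖ = ‖x‖ := by
  have hp0 : 0 < p.toReal := ENNReal.toReal_pos (zero_lt_one.trans_le Fact.out).ne' hp
  rw [← Real.rpow_left_inj (norm_nonneg _) (norm_nonneg _) hp0.ne', Ell.norm_rpow hp,
    Ell.norm_rpow hp]
  exact (Equiv.addRight (n : ℤ)).tsum_eq (fun n : ℤ => ‖x.term n‖ ^ p.toReal)

include hp in
theorem bddOrbit_iff (he : e ≠ 0) (x : Ell p E) :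
    BddOrbit (shiftOp p hp (jordanSeq f e hfe)) x ↔ ∀ m : ℤ, f (x.term m) = 0 := by
  constructor
  · rintro ⟨C, hC⟩ m
    by_contra hm
    have key : ∀ n : ℕ, (n : ℝ) * (‖f (x.term m)‖ * ‖e‖) ≤ C + ‖x.term m‖ := by
      intro n
      have h1 : ‖(((shiftOp p hp (jordanSeq f e hfe)) ^ n) x).term (m - n)‖ ≤ C :=
        (Ell.norm_term_le _ _).trans (hC n)
      rw [shiftOp_pow_term, sub_add_cancel] at h1
      have h3 : ‖((n : 𝕜) * f (x.term m)) • e‖ ≤
          ‖x.term m + ((n : 𝕜) * f (x.term m)) • e‖ + ‖x.term m‖ := by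
        have := norm_sub_le (x.term m + ((n : 𝕜) * f (x.term m)) • e) (x.term m)
        simpa using this
      rw [norm_smul, norm_mul, RCLike.norm_natCast, mul_assoc] at h3
      linarith
    have hpos : 0 < ‖f (x.term m)‖ * ‖e‖ := mul_pos (norm_pos_iff.2 hm) (norm_pos_iff.2 he)
    obtain ⟨n, hn⟩ := exists_nat_gt ((C + ‖x.term m‖) / (‖f (x.term m)‖ * ‖e‖))
    rw [div_lt_iff₀ hpos] at hn
    exact absurd (key n) (not_le.2 hn)
  · intro h
    refine ⟨‖x‖, fun n => ?_⟩
    have e1 : ((shiftOp p hp (jordanSeq f e hfe)) ^ n) x = plain p hp x n := by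
      apply Ell.ext
      intro m
      rw [shiftOp_pow_term, h]
      simp [plain]
    rw [e1, norm_plain]

end Jordan

section Product

variable {𝕜 : Type} [RCLike 𝕜] (p : ℝ≥0∞) [Fact (1 ≤ p)] (hp : p ≠ ∞)

@[simp]
theorem prodShift_apply {k : ℕ} (w : Fin k → Weight 𝕜) (v : Fin k → Ell p 𝕜)
    (i : Fin k) : prodShift p hp w v i = weightedShift p hp (w i) (v i) := rfl

theorem prodShift_pow_apply {k : ℕ} (w : Fin k → Weight 𝕜) (v : Fin k → Ell p 𝕜)
    (n : ℕ) (i : Fin k) :
    ((prodShift p hp w) ^ n) v i = ((weightedShift p hp (w i)) ^ n) (v i) := by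
  induction n with
  | zero => simp
  | succ n ih =>
    rw [pow_succ', mul_apply_eq_comp, prodShift_apply, ih, pow_succ', mul_apply_eq_comp]

theorem norm_prodShift_pow_single {k : ℕ} (w : Fin k → Weight 𝕜) (i : Fin k)
    (v : Ell p 𝕜) (n : ℕ) :
    ‖((prodShift p hp w) ^ n) (Pi.single i v)‖ = ‖((weightedShift p hp (w i)) ^ n) v‖ := by
  have e : ((prodShift p hp w) ^ n) (Pi.single i v) =
      Pi.single i (((weightedShift p hp (w i)) ^ n) v) := by
    funext j
    rw [prodShift_pow_apply]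
    by_cases h : j = i
    · subst h; simp
    · simp [h]
  rw [e, Pi.norm_single]

end Product

/-- The functional `x ↦ f (x_0)`. -/
noncomputable def evalZero {𝕜 E : Type} [RCLike 𝕜] [NormedAddCommGroup E] [NormedSpace 𝕜 E]
    (p : ℝ≥0∞) [Fact (1 ≤ p)] (f : E →L[𝕜] 𝕜) : Ell p E →L[𝕜] 𝕜 :=
  f.comp (lp.evalCLM 𝕜 (fun _ : ℤ => E) p 0)

theorem evalZero_apply {𝕜 E : Type} [RCLike 𝕜] [NormedAddCommGroup E] [NormedSpace 𝕜 E]
    (p : ℝ≥0∞) [Fact (1 ≤ p)] (f : E →L[𝕜] 𝕜) (x : Ell p E) :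
    evalZero p f x = f (x.term 0) := rfl

theorem exists_functional {𝕜 E : Type} [RCLike 𝕜] [NormedAddCommGroup E] [NormedSpace 𝕜 E]
    [FiniteDimensional 𝕜 E] (hd : 2 ≤ Module.finrank 𝕜 E) :
    ∃ (f : E →L[𝕜] 𝕜) (e v : E), f e = 0 ∧ e ≠ 0 ∧ f v ≠ 0 := by
  have : Nontrivial E := Module.nontrivial_of_finrank_pos (R := 𝕜) (by omega)
  obtain ⟨e, he⟩ := exists_ne (0 : E)
  have hlt : Submodule.span 𝕜 {e} < ⊤ := by
    rw [lt_top_iff_ne_top]
    intro htop
    have h1 := finrank_span_singleton (K := 𝕜) he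
    rw [htop, finrank_top] at h1
    omega
  obtain ⟨g, hg0, hg⟩ := Submodule.exists_le_ker_of_lt_top _ hlt
  obtain ⟨v, hv⟩ : ∃ v, g v ≠ 0 := by
    by_contra hcon
    push Not at hcon
    exact hg0 (LinearMap.ext hcon)
  refine ⟨LinearMap.toContinuousLinearMap g, e, v, ?_, he, hv⟩
  exact hg (Submodule.mem_span_singleton_self e)

/-- For `𝕜 = ℝ` or `ℂ`, every `1 ≤ p < ∞` and every finite dimensional normed space `X` over `𝕜`
with `dim X ≥ 2` (for example `X = 𝕜^d`, `d ≥ 2`, with its Euclidean norm), there is a sequence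
`S` of invertible linear maps of `X`, with uniformly bounded norms and inverses, such that the shift
operator `σ_S` on `ℓ_p(X)` is not linearly conjugate to any finite product of weighted backward
shifts on `ℓ_p(𝕜)`. -/
theorem main (𝕜 : Type) [RCLike 𝕜] (p : ℝ≥0∞) [Fact (1 ≤ p)] (hp : p ≠ ∞)
    (X : Type) [NormedAddCommGroup X] [NormedSpace 𝕜 X] [FiniteDimensional 𝕜 X]
    (hX : 2 ≤ Module.finrank 𝕜 X) :
    ∃ S : BddInvSeq 𝕜 X, ∀ (k : ℕ) (w : Fin k → Weight 𝕜),
      ¬ LinConj (shiftOp p hp S) (prodShift p hp w) := by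
  obtain ⟨f, e, v₀, hfe, he, hv₀⟩ := exists_functional hX
  refine ⟨jordanSeq f e hfe, fun k w => ?_⟩
  rintro ⟨H, hbij, hconj⟩
  have : CompleteSpace X := FiniteDimensional.complete 𝕜 X
  have : CompleteSpace (Ell p X) := completeSpace_ell p
  have : CompleteSpace (Ell p 𝕜) := completeSpace_ell p
  set T := shiftOp p hp (jordanSeq f e hfe) with hT
  set P := prodShift p hp w with hP
  have hpow : ∀ (n : ℕ) x, H ((T ^ n) x) = (P ^ n) (H x) := by
    intro n
    induction n with
    | zero => intro x; simp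
    | succ n ih =>
      intro x
      rw [pow_succ', mul_apply_eq_comp, hconj, ih, pow_succ', mul_apply_eq_comp]
  -- the inverse of `H`
  let He : Ell p X ≃L[𝕜] (Fin k → Ell p 𝕜) :=
    ContinuousLinearEquiv.ofBijective H (LinearMap.ker_eq_bot.2 hbij.1)
      (LinearMap.range_eq_top.2 hbij.2)
  set G : (Fin k → Ell p 𝕜) →L[𝕜] Ell p X :=
    (He.symm : (Fin k → Ell p 𝕜) →L[𝕜] Ell p X) with hG
  have hHG : ∀ v, H (G v) = v := fun v => He.apply_symm_apply v
  have hGH : ∀ x, G (H x) = x := fun x => He.symm_apply_apply x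
  -- bounded orbits are transported
  have hbd1 : ∀ x, BddOrbit T x → BddOrbit P (H x) := by
    rintro x ⟨C, hC⟩
    refine ⟨‖H‖ * C, fun n => ?_⟩
    rw [← hpow]
    exact (H.le_opNorm _).trans (mul_le_mul_of_nonneg_left (hC n) (norm_nonneg _))
  have hbd2 : ∀ v, BddOrbit P v → BddOrbit T (G v) := by
    rintro v ⟨C, hC⟩
    refine ⟨‖G‖ * C, fun n => ?_⟩
    have e : (T ^ n) (G v) = G ((P ^ n) v) := by
      rw [← hGH ((T ^ n) (G v)), hpow, hHG]
    rw [e]
    exact (G.le_opNorm _).trans (mul_le_mul_of_nonneg_left (hC n) (norm_nonneg _))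
  -- Claim 1: each `e_0^{(i)}` has bounded orbit
  have claim1 : ∀ i : Fin k, BddOrbit (weightedShift p hp (w i)) (Ell.single p 0 (1 : 𝕜)) := by
    intro i
    by_contra hun
    apply hun
    set b : Fin k → Ell p 𝕜 := Pi.single i (Ell.single p 0 (1 : 𝕜)) with hb
    set u := G b with hu
    refine ⟨‖H‖ * ‖u‖, fun n => ?_⟩
    -- the vector `T ^ n u - plain u n` has bounded orbit
    set v := (T ^ n) u - plain p hp u n with hv
    have hvb : BddOrbit T v := by
      rw [bddOrbit_iff p hp f e hfe he]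
      intro m
      rw [hv, Ell.term_sub, shiftOp_pow_term]
      simp [plain, hfe]
    have h0 : (H v) i = 0 := by
      apply eq_zero_of_bddOrbit p hp (w i) hun
      obtain ⟨C, hC⟩ := hbd1 v hvb
      refine ⟨C, fun m => ?_⟩
      rw [← prodShift_pow_apply]
      exact (norm_le_pi_norm _ i).trans (hC m)
    have h1 : ((weightedShift p hp (w i)) ^ n) (Ell.single p 0 (1 : 𝕜)) =
        (H (plain p hp u n)) i := by
      have h2 : H ((T ^ n) u) = (P ^ n) b := by rw [hpow, hHG]
      have h3 : plain p hp u n = (T ^ n) u - v := by rw [hv]; abel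
      rw [h3, map_sub, Pi.sub_apply, h0, sub_zero, h2, prodShift_pow_apply, hb, Pi.single_eq_same]
    rw [h1]
    refine (norm_le_pi_norm _ i).trans ((H.le_opNorm _).trans ?_)
    rw [norm_plain]
  -- Claim 2: the functional `x ↦ f (x_0)` vanishes after composing with `G`
  have hφ0 : ∀ (i : Fin k) (v : Ell p 𝕜), evalZero p f (G (Pi.single i v)) = 0 := by
    intro i
    have hz : (((evalZero p f).comp G).comp (ContinuousLinearMap.single 𝕜
        (fun _ : Fin k => Ell p 𝕜) i)) = 0 := by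
      apply Ell.clm_eq_zero p hp
      intro j
      have hb : BddOrbit (weightedShift p hp (w i)) (Ell.single p j (1 : 𝕜)) :=
        (bddOrbit_single_iff p hp (w i) j 0).2 (claim1 i)
      have hb' : BddOrbit P (Pi.single i (Ell.single p j (1 : 𝕜))) := by
        obtain ⟨C, hC⟩ := hb
        refine ⟨C, fun n => ?_⟩
        rw [norm_prodShift_pow_single]
        exact hC n
      exact (bddOrbit_iff p hp f e hfe he _).1 (hbd2 _ hb') 0
    intro v
    have := congrArg (fun f => f v) hz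
    simpa using this
  have hφ1 : ∀ v, evalZero p f (G v) = 0 := by
    intro v
    have e : v = ∑ i, Pi.single i (v i) := by
      rw [Finset.univ_sum_single]
    rw [e, map_sum, map_sum]
    exact Finset.sum_eq_zero fun i _ => hφ0 i (v i)
  have hcontra := hφ1 (H (Ell.single p 0 v₀))
  rw [hGH, evalZero_apply] at hcontra
  simp at hcontra
  exact hv₀ hcontra

end Pool.Agent.W_MP_43e0cc_an
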